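import Pool.Agent.H9.K2.Stmts
import Pool.Agent.H32.Dense.Pair

/-!
# The end by projection

A family whose positions are full along a plane which is visible from the position has no more
violation than its projection along the plane.
-/

set_option autoImplicit false

namespace Pool.KA

open Finset Real
open Pool.Agent.H49.Ent Pool.Agent.H32.Dense Pool.STK

/-- The coordinates of `x` in the frame `A`, with index in the image of `e`. -/
noncomputable def prj {m n : ℕ} (A : Fin m → Fin m → ℝ) (e : Fin n → Fin m) (x : Fin m → ℝ) :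
    Fin n → ℝ := fun i => ∑ j, A (e i) j * x j

/-- **The end by projection.** `z` is a label, `A` a frame (with inverse `B`) which depends on the
label only, the first `c` coordinates are transversal to the plane, the last `k` ones are along
the plane. -/
def ENPStmt : Prop :=
  ∀ c k : ℕ, KP c → ∀ b : ℝ, ∀ ε > 0, ∃ θ > 0, ∃ J₀ : ℕ, ∀ J ≥ J₀, ∀ (F : Fam (c + k) J)
    (κ : Type) (z : F.Ω → κ) (A B : κ → Fin (c + k) → Fin (c + k) → ℝ),
    (∀ y i j, |A y i j| ≤ 1) → (∀ y i j, |B y i j| ≤ b) →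
    (∀ y i l, ∑ j, B y i j * A y j l = if i = l then 1 else 0) →
    (F.cnd z).Tm (θ * J) →
    F.V J ≤ ε * J + CH F.p z (fun ω => (F.X J ω, F.W ω)) +
      (k * (J * Real.log 2) - CH F.p (fun ω => fl J (prj (A (z ω)) (Fin.natAdd c) (F.x ω)))
        (fun ω => (fl J (prj (A (z ω)) (Fin.castAdd k) (F.x ω)), (z ω, F.W ω))))

namespace ENP

lemma floor_dist {a b r : ℝ} (h : |a - b| ≤ r) : |((⌊a⌋ - ⌊b⌋ : ℤ) : ℝ)| ≤ r + 1 := by
  have a1 := Int.floor_le a
  have a2 := Int.lt_floor_add_one a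
  have b1 := Int.floor_le b
  have b2 := Int.lt_floor_add_one b
  rw [abs_le] at h ⊢
  push_cast
  constructor <;> linarith [h.1, h.2]

/-- Rounded vectors which are close to each other given `W`. -/
lemma CH_fl {Ω S : Type} [Fintype Ω] {n : ℕ} {p : Ω → ℝ} (hp : IsLaw p) (J : ℕ)
    (x : Ω → Fin n → ℝ) (W : Ω → S) (r : ℝ)
    (h : ∀ ω ω', 0 < p ω → 0 < p ω' → W ω = W ω' → ∀ i, |x ω i - x ω' i| ≤ r / 2 ^ J) :
    CH p (fun ω => fl J (x ω)) W ≤ n * Real.log (2 * r + 3) := by
  have h1 := CH_le_vec hp.nonneg hp.sum_one (fun ω => fl J (x ω)) W (fun _ => r + 1)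
    (by
      intro ω ω' a b hh i
      refine floor_dist ?_
      have h2 := h ω ω' a b hh i
      rw [← mul_sub, abs_mul, abs_of_pos (by positivity : (0 : ℝ) < 2 ^ J)]
      rw [le_div_iff₀ (by positivity)] at h2
      linarith)
  rw [Ex_const hp.sum_one] at h1
  refine h1.trans (le_of_eq ?_)
  congr 2
  ring

lemma of_fl_eq {n J : ℕ} {x y : Fin n → ℝ} (h : fl J x = fl J y) (i : Fin n) :
    |x i - y i| ≤ 1 / 2 ^ J := by
  have h1 : ⌊2 ^ J * x i⌋ = ⌊2 ^ J * y i⌋ := congrFun h i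
  have a1 := Int.floor_le ((2 : ℝ) ^ J * x i)
  have a2 := Int.lt_floor_add_one ((2 : ℝ) ^ J * x i)
  have b1 := Int.floor_le ((2 : ℝ) ^ J * y i)
  have b2 := Int.lt_floor_add_one ((2 : ℝ) ^ J * y i)
  rw [h1] at a1 a2
  rw [le_div_iff₀ (by positivity)]
  have e : |x i - y i| * 2 ^ J = |(x i - y i) * 2 ^ J| := by
    rw [abs_mul, abs_of_pos (by positivity : (0 : ℝ) < 2 ^ J)]
  rw [e, abs_le]
  constructor <;> linarith

lemma prj_dist {m n : ℕ} {A : Fin m → Fin m → ℝ} (hA : ∀ i j, |A i j| ≤ 1) (e : Fin n → Fin m)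
    {x y : Fin m → ℝ} {r : ℝ} (h : ∀ i, |x i - y i| ≤ r) (i : Fin n) :
    |prj A e x i - prj A e y i| ≤ m * r := by
  unfold prj
  rw [← Finset.sum_sub_distrib]
  refine (Finset.abs_sum_le_sum_abs _ _).trans ?_
  have h1 : ∀ j ∈ (univ : Finset (Fin m)), |A (e i) j * x j - A (e i) j * y j| ≤ r := by
    intro j _
    rw [← mul_sub, abs_mul]
    have h2 := h j
    have h3 := hA (e i) j
    have h4 := abs_nonneg (x j - y j)
    calc _ ≤ 1 * |x j - y j| := mul_le_mul_of_nonneg_right h3 h4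
      _ ≤ r := by linarith
  refine (Finset.sum_le_sum h1).trans ?_
  rw [Finset.sum_const, Finset.card_univ, Fintype.card_fin, nsmul_eq_mul]

lemma prj_line {m n : ℕ} (A : Fin m → Fin m → ℝ) (e : Fin n → Fin m) (u d : Fin m → ℝ) (t : ℝ) :
    prj A e (fun i => u i + t * d i) = fun i => prj A e u i + t * prj A e d i := by
  funext i
  unfold prj
  rw [Finset.mul_sum, ← Finset.sum_add_distrib]
  exact Finset.sum_congr rfl fun j _ => by ring

/-- The vector is determined by its coordinates in the frame. -/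
lemma of_prj {c k : ℕ} {A B : Fin (c + k) → Fin (c + k) → ℝ} {b r : ℝ} (hB : ∀ i j, |B i j| ≤ b)
    (hBA : ∀ i l, ∑ j, B i j * A j l = if i = l then 1 else 0) {x y : Fin (c + k) → ℝ}
    (h1 : ∀ i, |prj A (Fin.castAdd k) x i - prj A (Fin.castAdd k) y i| ≤ r)
    (h2 : ∀ i, |prj A (Fin.natAdd c) x i - prj A (Fin.natAdd c) y i| ≤ r) (i : Fin (c + k)) :
    |x i - y i| ≤ ((c + k : ℕ) : ℝ) * (b * r) := by
  have hr : ∀ j : Fin (c + k), |(∑ l, A j l * x l) - ∑ l, A j l * y l| ≤ r := by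
    intro j
    refine Fin.addCases (fun j => ?_) (fun j => ?_) j
    · exact h1 j
    · exact h2 j
  have hx : ∀ v : Fin (c + k) → ℝ, v i = ∑ j, B i j * ∑ l, A j l * v l := by
    intro v
    simp only [Finset.mul_sum]
    rw [Finset.sum_comm]
    have : ∀ l, ∑ j, B i j * (A j l * v l) = (if i = l then 1 else 0) * v l := by
      intro l
      rw [← hBA i l, Finset.sum_mul]
      exact Finset.sum_congr rfl fun j _ => by ring
    simp only [this, ite_mul, one_mul, zero_mul, Finset.sum_ite_eq, Finset.mem_univ, if_true]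
  have b0 : 0 ≤ b := (abs_nonneg _).trans (hB i i)
  rw [hx x, hx y, ← Finset.sum_sub_distrib]
  refine (Finset.abs_sum_le_sum_abs _ _).trans ?_
  have h3 : ∀ j ∈ (univ : Finset (Fin (c + k))),
      |B i j * (∑ l, A j l * x l) - B i j * ∑ l, A j l * y l| ≤ b * r := by
    intro j _
    rw [← mul_sub, abs_mul]
    exact mul_le_mul (hB i j) (hr j) (abs_nonneg _) b0
  refine (Finset.sum_le_sum h3).trans ?_
  rw [Finset.sum_const, Finset.card_univ, Fintype.card_fin, nsmul_eq_mul]

end ENP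

open ENP

/-- The projected family. -/
noncomputable def ENP.pf {c k J : ℕ} (F : Fam (c + k) J) {κ : Type} (z : F.Ω → κ)
    (A : κ → Fin (c + k) → Fin (c + k) → ℝ) (hA : ∀ y i j, |A y i j| ≤ 1) : Fam c J where
  Ω := F.Ω
  ζ := κ × F.ζ
  fin := F.fin
  p := F.p
  u := fun ω i => prj (A (z ω)) (Fin.castAdd k) (F.u ω) i / ((c + k : ℕ) + 1)
  d := fun ω i => prj (A (z ω)) (Fin.castAdd k) (F.d ω) i / ((c + k : ℕ) + 1)
  T := F.T
  Z := fun ω => (z ω, F.Z ω)
  isLaw := F.isLaw
  dir := by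
    intro ω i
    rw [abs_div, abs_of_pos (by positivity : (0 : ℝ) < ((c + k : ℕ) : ℝ) + 1),
      div_le_one (by positivity)]
    have h := prj_dist (hA (z ω)) (Fin.castAdd k) (x := F.d ω) (y := fun _ => 0) (r := 1)
      (fun j => by simpa using F.dir ω j) i
    have e : prj (A (z ω)) (Fin.castAdd k) (fun _ => 0) i = 0 := by
      unfold prj
      simp
    rw [e, sub_zero, mul_one] at h
    linarith
  tim := F.tim

theorem enp_thm : ENPStmt := by
  intro c k hK b ε hε
  obtain ⟨θ₀, hθ₀, J₁, hJ₁⟩ := hK (ε / 3) (by positivity)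
  set m : ℕ := c + k with hm
  set C : ℝ := m * Real.log (2 * (m * (b * 1)) + 3) + k * Real.log (8 * m + 10) +
    m * Real.log (2 * m + 3) + 2 * (c * Real.log (2 * (m + 1) + 3)) with hC
  obtain ⟨J₂, hJ₂⟩ := exists_nat_ge (3 * C / ε)
  refine ⟨min θ₀ (ε / 3), lt_min hθ₀ (by positivity), max J₁ J₂, ?_⟩
  intro J hJ F κ z A B hA hB hBA hTm
  have hp := F.isLaw
  have hp0 := hp.nonneg
  have hJ1 : J₁ ≤ J := (le_max_left _ _).trans hJ
  have hJ2 : J₂ ≤ J := (le_max_right _ _).trans hJ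
  set NX : F.Ω → Fin c → ℤ := fun ω => fl J (prj (A (z ω)) (Fin.castAdd k) (F.x ω)) with hNX
  set WX : F.Ω → Fin k → ℤ := fun ω => fl J (prj (A (z ω)) (Fin.natAdd c) (F.x ω)) with hWX
  set ND : F.Ω → Fin c → ℤ := fun ω => fl J (prj (A (z ω)) (Fin.castAdd k) (F.d ω)) with hND
  set WD : F.Ω → Fin k → ℤ := fun ω => fl J (prj (A (z ω)) (Fin.natAdd c) (F.d ω)) with hWD
  set V : F.Ω → κ × F.ζ := fun ω => (z ω, F.Z ω) with hV
  set G : Fam c J := pf F z A hA with hG
  -- the time
  have hT0 : CH F.p F.T (fun ω => (F.l ω, (z ω, F.Z ω))) ≤ CH F.p F.T V := by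
    refine CH_mono_cond hp0 ?_
    intro ω ω' _ _ h
    exact (Prod.ext_iff.mp h).2
  have hTm' : (J : ℝ) * Real.log 2 - min θ₀ (ε / 3) * J ≤
      CH F.p F.T (fun ω => (F.l ω, (z ω, F.Z ω))) := hTm
  have hT1 : CH F.p F.T F.Z ≤ J * Real.log 2 := by
    have h1 := CH_le_card hp.nonneg hp.sum_one F.T F.Z (fun _ => Finset.range (2 ^ J))
      (fun ω _ => Finset.mem_range.2 (F.tim ω))
    rw [Ex_const hp.sum_one, Finset.card_range] at h1
    push_cast at h1
    rwa [Real.log_pow] at h1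
  have hmin1 : min θ₀ (ε / 3) * J ≤ θ₀ * J :=
    mul_le_mul_of_nonneg_right (min_le_left _ _) (by positivity)
  have hmin2 : min θ₀ (ε / 3) * J ≤ ε / 3 * J :=
    mul_le_mul_of_nonneg_right (min_le_right _ _) (by positivity)
  -- the projected family
  have hGTm : G.Tm (θ₀ * J) := by
    unfold Fam.Tm
    have h1 : CH F.p F.T (fun ω => (F.l ω, (z ω, F.Z ω))) ≤
        CH F.p F.T (fun ω => (G.l ω, G.Z ω)) := by
      refine CH_mono_cond hp0 ?_
      intro ω ω' _ _ h
      simp only [Fam.l, Prod.mk.injEq] at h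
      obtain ⟨⟨h1, h2⟩, h3, h4⟩ := h
      change (((fun i => prj (A (z ω)) (Fin.castAdd k) (F.u ω) i / (((c + k : ℕ) : ℝ) + 1)),
        (fun i => prj (A (z ω)) (Fin.castAdd k) (F.d ω) i / (((c + k : ℕ) : ℝ) + 1))),
          (z ω, F.Z ω)) =
        (((fun i => prj (A (z ω')) (Fin.castAdd k) (F.u ω') i / (((c + k : ℕ) : ℝ) + 1)),
        (fun i => prj (A (z ω')) (Fin.castAdd k) (F.d ω') i / (((c + k : ℕ) : ℝ) + 1))),
          (z ω', F.Z ω'))
      rw [h1, h2, h3, h4]
    have h2 : CH G.p G.T (fun ω => (G.l ω, G.Z ω)) =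
      CH F.p F.T (fun ω => (G.l ω, G.Z ω)) := rfl
    rw [h2]
    linarith
  have hGV := hJ₁ J hJ1 G hGTm
  have hGV' : CH F.p (G.D J) V - CH F.p (G.X J) (fun ω => (F.T ω, V ω)) ≤ ε / 3 * J := by
    have e : G.V J = CH F.p (G.D J) V - CH F.p (G.X J) (fun ω => (F.T ω, V ω)) := by
      unfold Fam.V
      rw [sub_self, zero_mul, mul_zero, sub_zero]
      rfl
    rwa [e] at hGV
  have hGx : ∀ ω i, G.x ω i = prj (A (z ω)) (Fin.castAdd k) (F.x ω) i / (m + 1) := by
    intro ω i
    have h1 := congrFun (prj_line (A (z ω)) (Fin.castAdd k) (F.u ω) (F.d ω) (F.t ω)) i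
    have h2 : prj (A (z ω)) (Fin.castAdd k) (F.x ω) i =
      prj (A (z ω)) (Fin.castAdd k) (fun i => F.u ω i + F.t ω * F.d ω i) i := rfl
    rw [h2, h1]
    change prj (A (z ω)) (Fin.castAdd k) (F.u ω) i / (m + 1) +
      F.t ω * (prj (A (z ω)) (Fin.castAdd k) (F.d ω) i / (m + 1)) = _
    ring
  have m0 : (0 : ℝ) < (m : ℝ) + 1 := by positivity
  -- comparison of the digits of the projected family
  have c1 : CH F.p ND V ≤ CH F.p (G.D J) V + c * Real.log (2 * (m + 1) + 3) := by
    have h1 := CH_le_add hp0 ND (G.D J) V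
    have h2 := CH_fl hp J (fun ω => prj (A (z ω)) (Fin.castAdd k) (F.d ω))
      (fun ω => (G.D J ω, V ω)) (m + 1) (by
        intro ω ω' _ _ h i
        simp only [hV, Prod.mk.injEq] at h
        have h3 := of_fl_eq h.1 i
        have e1 : ∀ w, prj (A (z w)) (Fin.castAdd k) (F.d w) i = (m + 1) * G.d w i := by
          intro w
          change _ = (m + 1) * (prj (A (z w)) (Fin.castAdd k) (F.d w) i / (m + 1))
          field_simp
        rw [e1, e1, ← mul_sub, abs_mul, abs_of_pos m0, div_eq_mul_one_div]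
        exact mul_le_mul_of_nonneg_left h3 m0.le)
    linarith
  have c2 : CH F.p (G.X J) (fun ω => (F.T ω, V ω)) ≤
      CH F.p NX (fun ω => (F.T ω, V ω)) + c * Real.log (2 * (m + 1) + 3) := by
    have h1 := CH_le_add hp0 (G.X J) NX (fun ω => (F.T ω, V ω))
    have h2 := CH_fl hp J G.x (fun ω => (NX ω, (F.T ω, V ω))) (m + 1) (by
        intro ω ω' _ _ h i
        simp only [Prod.mk.injEq] at h
        have h3 := of_fl_eq h.1 i
        have e1 := hGx ω i
        have e2 := hGx ω' i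
        have e3 : |G.x ω i - G.x ω' i| ≤ (m + 1) / 2 ^ J := by
          rw [e1, e2, ← sub_div, abs_div, abs_of_pos m0, div_le_iff₀ m0]
          have h4 : (1 : ℝ) / 2 ^ J ≤ (m + 1) / 2 ^ J * (m + 1) := by
            rw [div_mul_eq_mul_div]
            refine div_le_div_of_nonneg_right ?_ (by positivity)
            have : (0 : ℝ) ≤ m := by positivity
            nlinarith
          linarith
        exact e3)
    have h3 : CH F.p (G.X J) (fun ω => (NX ω, (F.T ω, V ω))) =
      CH F.p (fun ω => fl J (G.x ω)) (fun ω => (NX ω, (F.T ω, V ω))) := rfl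
    rw [h3] at h1
    linarith
  -- the directions
  have d1 : CH F.p (F.D J) V ≤ CH F.p ND V + (k * (J * Real.log 2) + k * Real.log (8 * m + 10)) +
      m * Real.log (2 * (m * (b * 1)) + 3) := by
    have h1 := CH_le_add hp0 (F.D J) (fun ω => (WD ω, ND ω)) V
    have h2 := CH_chain hp0 WD ND V
    have h3 := CH_fl hp J F.d (fun ω => ((WD ω, ND ω), V ω)) (m * (b * 1)) (by
        intro ω ω' _ _ h i
        simp only [hV, Prod.mk.injEq] at h
        obtain ⟨⟨ha, hb⟩, hz, _⟩ := h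
        have h4 := of_prj (hB (z ω)) (hBA (z ω)) (x := F.d ω) (y := F.d ω') (r := 1 / 2 ^ J)
          (fun i => by
            refine of_fl_eq (J := J) ?_ i
            rw [hND] at hb
            simp only at hb
            rw [hb, hz])
          (fun i => by
            refine of_fl_eq (J := J) ?_ i
            rw [hWD] at ha
            simp only at ha
            rw [ha, hz]) i
        refine h4.trans (le_of_eq ?_)
        ring)
    have h4 := CH_fl hp J (fun ω => prj (A (z ω)) (Fin.natAdd c) (F.d ω))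
      (fun ω => (ND ω, V ω)) (2 * m * 2 ^ J) (by
        intro ω ω' _ _ _ i
        have e : ∀ w, |prj (A (z w)) (Fin.natAdd c) (F.d w) i| ≤ m := by
          intro w
          have h5 := prj_dist (hA (z w)) (Fin.natAdd c) (x := F.d w) (y := fun _ => 0) (r := 1)
            (fun j => by simpa using F.dir w j) i
          have e : prj (A (z w)) (Fin.natAdd c) (fun _ => 0) i = 0 := by
            unfold prj
            simp
          rwa [e, sub_zero, mul_one] at h5
        have e1 := e ω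
        have e2 := e ω'
        rw [mul_div_assoc, div_self (by positivity), mul_one]
        exact (abs_sub _ _).trans (by linarith))
    have h5 : Real.log (2 * (2 * m * 2 ^ J) + 3) ≤ J * Real.log 2 + Real.log (8 * m + 10) := by
      rw [← Real.log_pow, ← Real.log_mul (by positivity) (by positivity)]
      refine Real.log_le_log (by positivity) ?_
      have h6 : (1 : ℝ) ≤ 2 ^ J := one_le_pow₀ (by norm_num)
      have h7 : (0 : ℝ) ≤ m := by positivity
      nlinarith
    have h6 : (k : ℝ) * Real.log (2 * (2 * m * 2 ^ J) + 3) ≤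
        k * (J * Real.log 2) + k * Real.log (8 * m + 10) := by
      rw [← mul_add]
      exact mul_le_mul_of_nonneg_left h5 (by positivity)
    have h7 : CH F.p (F.D J) (fun ω => ((WD ω, ND ω), V ω)) =
      CH F.p (fun ω => fl J (F.d ω)) (fun ω => ((WD ω, ND ω), V ω)) := rfl
    rw [h7] at h1
    linarith
  -- the positions
  have x1 : CH F.p NX (fun ω => (F.T ω, V ω)) + CH F.p WX (fun ω => (NX ω, (F.T ω, V ω))) ≤
      CH F.p (F.X J) (fun ω => (F.T ω, V ω)) + m * Real.log (2 * m + 3) := by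
    have h1 := CH_chain hp0 WX NX (fun ω => (F.T ω, V ω))
    have h2 := CH_le_add hp0 (fun ω => (WX ω, NX ω)) (F.X J) (fun ω => (F.T ω, V ω))
    have h3 := CH_chain hp0 WX NX (fun ω => (F.X J ω, (F.T ω, V ω)))
    have hcl : ∀ (n : ℕ) (e : Fin n → Fin m) (S : Type) (Q : F.Ω → S),
        CH F.p (fun ω => fl J (prj (A (z ω)) e (F.x ω))) (fun ω => (Q ω, (F.X J ω, (F.T ω, V ω))))
          ≤ n * Real.log (2 * m + 3) := by
      intro n e S Q
      refine CH_fl hp J (fun ω => prj (A (z ω)) e (F.x ω)) _ m ?_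
      intro ω ω' _ _ h i
      simp only [hV, Prod.mk.injEq] at h
      obtain ⟨_, hX, _, hz, _⟩ := h
      rw [← hz]
      have h5 := prj_dist (hA (z ω)) e (fun j => of_fl_eq hX j) i
      rwa [← div_eq_mul_one_div] at h5
    have h4 := hcl c (Fin.castAdd k) Unit (fun _ => ())
    have h4' : CH F.p NX (fun ω => (F.X J ω, (F.T ω, V ω))) =
        CH F.p (fun ω => fl J (prj (A (z ω)) (Fin.castAdd k) (F.x ω)))
          (fun ω => ((fun _ => ()) ω, (F.X J ω, (F.T ω, V ω)))) := by
      refine CH_congr hp0 ?_ ?_ ?_ ?_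
      · intro ω ω' _ _ h
        exact (Prod.ext_iff.mp h).1
      · intro ω ω' _ _ h
        exact (Prod.ext_iff.mp h).1
      · intro ω ω' _ _ h
        exact Prod.ext rfl h
      · intro ω ω' _ _ h
        exact (Prod.ext_iff.mp h).2
    have h5 := hcl k (Fin.natAdd c) (Fin c → ℤ) NX
    have h6 : ((m : ℕ) : ℝ) = c + k := by rw [hm]; push_cast; ring
    have h7 : (m : ℝ) * Real.log (2 * m + 3) = c * Real.log (2 * m + 3) +
      k * Real.log (2 * m + 3) := by
      nth_rewrite 1 [h6]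
      ring
    linarith
  -- the label
  have z1 := CH_le_add hp0 (F.D J) z F.Z
  have z2 := CH_bayes hp0 z F.T F.Z
  have z3 := CH_chain hp0 (F.X J) z F.W
  have z4 := CH_chain hp0 z (F.X J) F.W
  have z5 : CH F.p (fun ω => (F.X J ω, z ω)) F.W = CH F.p (fun ω => (z ω, F.X J ω)) F.W := by
    refine CH_congr hp0 ?_ ?_ (fun _ _ _ _ h => h) (fun _ _ _ _ h => h)
    · intro ω ω' _ _ h
      simp only [Prod.mk.injEq] at h ⊢
      exact ⟨h.1.2, h.1.1⟩
    · intro ω ω' _ _ h
      simp only [Prod.mk.injEq] at h ⊢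
      exact ⟨h.1.2, h.1.1⟩
  have e1 : CH F.p (F.X J) (fun ω => (F.T ω, V ω)) = CH F.p (F.X J) (fun ω => (z ω, F.W ω)) := by
    refine CH_congr hp0 ?_ ?_ ?_ ?_
    · intro ω ω' _ _ h
      exact (Prod.ext_iff.mp h).1
    · intro ω ω' _ _ h
      exact (Prod.ext_iff.mp h).1
    · intro ω ω' _ _ h
      simp only [hV, Fam.W, Prod.mk.injEq] at h ⊢
      tauto
    · intro ω ω' _ _ h
      simp only [hV, Fam.W, Prod.mk.injEq] at h ⊢
      tauto
  have e2 : CH F.p WX (fun ω => (NX ω, (F.T ω, V ω))) =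
      CH F.p WX (fun ω => (NX ω, (z ω, F.W ω))) := by
    refine CH_congr hp0 ?_ ?_ ?_ ?_
    · intro ω ω' _ _ h
      exact (Prod.ext_iff.mp h).1
    · intro ω ω' _ _ h
      exact (Prod.ext_iff.mp h).1
    · intro ω ω' _ _ h
      simp only [hV, Fam.W, Prod.mk.injEq] at h ⊢
      tauto
    · intro ω ω' _ _ h
      simp only [hV, Fam.W, Prod.mk.injEq] at h ⊢
      tauto
  have hCJ : C ≤ ε / 3 * J := by
    have h1 : 3 * C / ε ≤ J := hJ₂.trans (by exact_mod_cast hJ2)
    rw [div_le_iff₀ hε] at h1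
    linarith
  have hVJ : F.V J = CH F.p (F.D J) F.Z - CH F.p (F.X J) F.W := by
    unfold Fam.V
    rw [sub_self, zero_mul, mul_zero, sub_zero]
  have z2' : CH F.p z F.W = CH F.p z F.Z + CH F.p F.T V - CH F.p F.T F.Z := z2
  change F.V J ≤ ε * J + CH F.p z (fun ω => (F.X J ω, F.W ω)) +
    (k * (J * Real.log 2) - CH F.p WX (fun ω => (NX ω, (z ω, F.W ω))))
  change C = _ at hC
  linarith

end Pool.KA
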